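import Pool.Agent.Lib.MP_7073fe_pr.Lower

/-!
Expected face numbers of block-beta random polytopes for all parameters `β i > -1`.
-/

set_option autoImplicit false

open MeasureTheory Filter

namespace Pool.Agent.Results.MP_7073fe_pr.FaceNumbers

open Pool.Agent.Lib.MP_7073fe_pr

/-- With `K` the largest beta-adjusted dimension, the expected number of `j`-faces has order
`n ^ ((K - 1) / (K + 1)) * (log n) ^ (number of blocks attaining K, minus one)` for every `j` below
the dimension. -/
theorem result : ∀ (m : ℕ) (d : Fin m → ℕ) (β : Fin m → ℝ) (K : ℝ),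
    (∀ i, 1 ≤ d i) → (∀ i, -1 < β i) →
    IsGreatest (Set.range fun i => ((d i : ℝ) + β i) / (1 + β i)) K →
    ∃ c C : ℝ, 0 < c ∧ c ≤ C ∧ ∀ j : ℕ, j + 1 ≤ ∑ i, d i → ∀ᶠ n : ℕ in atTop,
      c * ((n : ℝ) ^ ((K - 1) / (K + 1)) * Real.log n ^
        ((Finset.univ.filter fun i => ((d i : ℝ) + β i) / (1 + β i) = K).card - 1)) ≤
          expFaces d β j n ∧
      expFaces d β j n ≤ C * ((n : ℝ) ^ ((K - 1) / (K + 1)) * Real.log n ^
        ((Finset.univ.filter fun i => ((d i : ℝ) + β i) / (1 + β i) = K).card - 1)) := by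
  rintro m d β K hd hβ ⟨⟨i0, hi0⟩, hK⟩
  have hb : ∀ i, 0 < 1 + β i := fun i => by linarith [hβ i]
  have hd' : ∀ i, (1 : ℝ) ≤ d i := fun i => by exact_mod_cast hd i
  have hk : ∀ i, ((d i : ℝ) + β i) / (1 + β i) ≤ K := fun i => hK ⟨i, rfl⟩
  have hK1 : 1 ≤ K := le_trans ((one_le_div (hb i0)).2 (by linarith [hd' i0])) (hk i0)
  set δ : Fin m → ℝ := fun i => (1 + β i) / (K + 1) * (K - (d i + β i) / (1 + β i)) with hδ
  have hδ0 : ∀ i, δ i = 0 ↔ ((d i : ℝ) + β i) / (1 + β i) = K := fun i => by
    have : (1 + β i) / (K + 1) ≠ 0 := (div_pos (hb i) (by linarith)).ne'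
    simp only [hδ, mul_eq_zero, this, false_or, sub_eq_zero]
    exact eq_comm
  have hrel : ∀ i, ((d i : ℝ) - 1) / 2 = (K - 1) / (K + 1) * ex (d i) (β i) - δ i := fun i => by
    have := (hb i).ne'
    have : K + 1 ≠ 0 := by linarith
    simp only [hδ, ex]
    field_simp
    ring
  have hρ : 0 ≤ (K - 1) / (K + 1) := div_nonneg (by linarith) (by linarith)
  obtain ⟨c, hc, hlow⟩ := prob_lower hd hβ hρ ((hδ0 i0).2 hi0) hrel
  choose C hC hup using prob_upper hd hβ hρ ((div_lt_one (by linarith)).2 (by linarith))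
    (δ := δ) (fun i => mul_nonneg (div_pos (hb i) (by linarith)).le (sub_nonneg.2 (hk i)))
    ((hδ0 i0).2 hi0) hrel
  simp only [hδ0] at hlow hup
  set D := ∑ i, d i with hD
  have hD1 : (1 : ℝ) ≤ D := by
    exact_mod_cast (hd i0).trans (Finset.single_le_sum (fun _ _ => Nat.zero_le _)
      (Finset.mem_univ i0))
  have hsum : 0 ≤ ∑ j ∈ Finset.range D, C j := Finset.sum_nonneg fun j _ => (hC j).le
  refine ⟨c / D, c / D + ∑ j ∈ Finset.range D, C j, by positivity, by linarith, fun j hj => ?_⟩
  filter_upwards [eventually_ge_atTop (2 * D + 3)] with n hn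
  have := block_prob hd hβ
  have hgp := ae_gp (n := n) (blockBeta d β) (block_hyper hd hβ)
  have hfr : Module.finrank ℝ (Space d) = D := finrank_space d
  have hE : expFaces d β j n =
      ∫ X, (cnt X (j + 1) : ℝ) ∂(Measure.pi fun _ : Fin n => blockBeta d β) := by
    refine integral_congr_ae ?_
    filter_upwards [hgp] with X hX
    rw [faceCount_eq hX (by omega)]
  have hn1 : (1 : ℝ) ≤ n := by exact_mod_cast (by omega : 1 ≤ n)
  have hlog := Real.log_nonneg hn1
  set g := (n : ℝ) ^ ((K - 1) / (K + 1)) * Real.log n ^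
    ((Finset.univ.filter fun i => ((d i : ℝ) + β i) / (1 + β i) = K).card - 1) with hg
  have hg0 : 0 ≤ g := by positivity
  constructor
  · have h1 : ∫ X, (cnt X 1 : ℝ) ∂(Measure.pi fun _ : Fin n => blockBeta d β) ≤
        ∫ X, ((j : ℝ) + 1) * (cnt X (j + 1) : ℝ) ∂(Measure.pi fun _ : Fin n => blockBeta d β) := by
      refine integral_mono_ae (integrable_cnt _ _) ((integrable_cnt _ _).const_mul _) ?_
      filter_upwards [hgp] with X hX
      exact_mod_cast hX.cnt_le (by omega) (by omega)
    rw [integral_const_mul, ← hE, integral_cnt] at h1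
    have h2 := Finset.card_nsmul_le_sum (Finset.univ.powersetCard 1) _ (c * g / n) fun S hS =>
      (div_le_iff₀' (by linarith)).2 (hlow n (by omega) S (Finset.mem_powersetCard.1 hS).2)
    rw [Finset.card_powersetCard, Nat.choose_one_right, Finset.card_univ, Fintype.card_fin,
      nsmul_eq_mul, mul_div_cancel₀ _ (by linarith)] at h2
    have h3 : 0 ≤ expFaces d β j n := integral_nonneg fun _ => Nat.cast_nonneg _
    have h4 : (j : ℝ) + 1 ≤ D := by exact_mod_cast hj
    rw [div_mul_eq_mul_div, div_le_iff₀' (by linarith)]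
    exact (h2.trans h1).trans (mul_le_mul_of_nonneg_right h4 h3)
  · rw [hE, integral_cnt]
    have h2 := Finset.sum_le_card_nsmul (Finset.univ.powersetCard (j + 1)) _
      (C j * g / n ^ (j + 1)) fun S hS => (le_div_iff₀' (by positivity)).2
        (hup j n (by omega) (by omega) S (Finset.mem_powersetCard.1 hS).2)
    rw [Finset.card_powersetCard, Finset.card_univ, Fintype.card_fin, nsmul_eq_mul] at h2
    have h3 : ((n.choose (j + 1) : ℕ) : ℝ) ≤ n ^ (j + 1) := by
      exact_mod_cast Nat.choose_le_pow n (j + 1)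
    have h4 := hC j
    refine h2.trans ((mul_le_mul_of_nonneg_right h3 (by positivity)).trans ?_)
    rw [mul_div_cancel₀ _ (by positivity)]
    refine mul_le_mul_of_nonneg_right ?_ hg0
    have := Finset.single_le_sum (fun j (_ : j ∈ Finset.range D) => (hC j).le)
      (Finset.mem_range.2 (by omega : j < D))
    have : 0 < c / D := by positivity
    linarith

end Pool.Agent.Results.MP_7073fe_pr.FaceNumbers
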